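import Pool.Agent.H102Z.Hier.Main

set_option autoImplicit false

namespace Pool.Agent.Results.MP_c53cb9_pr.ATriangles

open Pool.Agent.H102Z.Hier

/-- For every `d`, `L`, `ρ` and every `α` in `[99 d / 100, d)`, for every `λ` and `i`, with
probability tending to one the graph `G_n` has at least `i` components and each of its `i` largest
components (however ties are broken) contains a triangle. -/
theorem result (d L : ℕ) [NeZero L] (hd : 1 ≤ d) (hL : 2 ≤ L) (α A₁ A₂ : ℝ)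
    (hα₁ : 99 / 100 * (d : ℝ) ≤ α) (hα₂ : α < d) (hA₁ : 0 < A₁) (ρ : ℝ → ℝ)
    (hρ : ∀ r : ℝ, 1 ≤ r → A₁ * r ^ (-α) ≤ ρ r ∧ ρ r ≤ A₂ * r ^ (-α)) (ζ : ℕ → ℝ)
    (hζ : ∀ n : ℕ, 2 ≤ n → 0 < ζ n ∧ ((L : ℝ) ^ d - 1) * ∑ i ∈ Finset.Icc 1 n,
      (L : ℝ) ^ ((i - 1) * d) * Real.exp (-(ζ n)⁻¹ * ρ ((L : ℝ) ^ i)) = (L : ℝ) ^ (n * d) - 2)
    (lam : ℝ) (i : ℕ) :
    Filter.Tendsto
      (fun n : ℕ => graphProb (edgeProb (d := d) (L := L) (n := n) ρ (ζ n) lam) (TopTriangle i))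
      Filter.atTop (nhds 1) :=
  main hd hL hα₁ hα₂ hA₁ ρ hρ ζ hζ lam i

end Pool.Agent.Results.MP_c53cb9_pr.ATriangles
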